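import Mathlib

/-!
# The linear Cauchy and Davenport theorem

For nonzero finite-dimensional subspaces `A, B` of a field `G` over an algebraically closed field
`E` the space `A B` has dimension at least `dim A + dim B - 1`.
-/

namespace Pool.Agent.QTup

open Module Submodule
open scoped Pointwise

variable {E G : Type*} [Field E] [Field G] [Algebra E G]

theorem fin_mul (A B : Submodule E G) [Module.Finite E A] [Module.Finite E B] :
    Module.Finite E ↥(A * B) :=
  Module.Finite.iff_fg.2 ((Module.Finite.iff_fg.1 ‹_›).mul (Module.Finite.iff_fg.1 ‹_›))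

/-- the dimension of `z X` -/
theorem finrank_smul {z : G} (hz : z ≠ 0) (X : Submodule E G) :
    finrank E ↥(span E {z} * X) = finrank E X := by
  have h : span E {z} * X = X.map (LinearMap.mulLeft E z) := by
    ext w
    rw [mem_span_singleton_mul, mem_map]
    rfl
  rw [h]
  exact (LinearEquiv.finrank_eq (Submodule.equivMapOfInjective (LinearMap.mulLeft E z)
    (fun a b hab => mul_left_cancel₀ hz hab) X)).symm

theorem fin_smul (z : G) (X : Submodule E G) [Module.Finite E X] :
    Module.Finite E ↥(span E {z} * X) :=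
  have : Module.Finite E ↥(span E {z}) := Module.Finite.span_of_finite E (Set.finite_singleton z)
  fin_mul _ _

theorem smul_ne_bot {z : G} (hz : z ≠ 0) {X : Submodule E G} (hX : X ≠ ⊥) :
    span E {z} * X ≠ ⊥ := by
  obtain ⟨x, hx, hx0⟩ := Submodule.exists_mem_ne_zero_of_ne_bot hX
  intro h
  have h1 : z * x ∈ span E {z} * X := mul_mem_mul (mem_span_singleton_self z) hx
  rw [h, mem_bot] at h1
  exact mul_ne_zero hz hx0 h1

theorem le_mul {A X : Submodule E G} [Module.Finite E A] [Module.Finite E X] (hA : A ≠ ⊥) :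
    finrank E X ≤ finrank E ↥(A * X) := by
  obtain ⟨a, ha, ha0⟩ := Submodule.exists_mem_ne_zero_of_ne_bot hA
  have := fin_mul A X
  rw [← finrank_smul ha0 X]
  exact Submodule.finrank_mono (mul_le_mul' ((span_singleton_le_iff_mem a A).2 ha) le_rfl)

/-- a finite-dimensional space which is closed under multiplication is `E` -/
theorem one_dim [IsAlgClosed E] {X : Submodule E G} [Module.Finite E X] (h1 : (1 : G) ∈ X)
    (hX : ∀ z ∈ X, ∀ w ∈ X, z * w ∈ X) : finrank E X = 1 := by
  let S : Subalgebra E G :=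
    { carrier := X
      mul_mem' := fun {a b} ha hb => hX a ha b hb
      one_mem' := h1
      add_mem' := fun {a b} ha hb => X.add_mem ha hb
      zero_mem' := X.zero_mem
      algebraMap_mem' := fun r => by
        rw [Algebra.algebraMap_eq_smul_one]
        exact X.smul_mem r h1 }
  have hS : Module.Finite E S := ‹Module.Finite E X›
  have hle : X ≤ span E {(1 : G)} := by
    intro z hz
    have hi : IsIntegral E (⟨z, hz⟩ : S) := IsIntegral.of_finite E _
    have hi' : IsIntegral E z := hi.map S.val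
    have h2 := IsAlgClosed.degree_eq_one_of_irreducible E (minpoly.irreducible hi')
    obtain ⟨c, hc⟩ := minpoly.mem_range_of_degree_eq_one E z h2
    rw [mem_span_singleton]
    exact ⟨c, by rw [← hc, Algebra.algebraMap_eq_smul_one]⟩
  have he : X = span E {(1 : G)} := le_antisymm hle ((span_singleton_le_iff_mem _ _).2 h1)
  rw [he]
  exact finrank_span_singleton one_ne_zero

/-- **The linear Cauchy and Davenport theorem.** -/
theorem cd [IsAlgClosed E] (A B : Submodule E G) [Module.Finite E A] [hfB : Module.Finite E B]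
    (hA : A ≠ ⊥) (hB : B ≠ ⊥) : finrank E A + finrank E B ≤ finrank E ↥(A * B) + 1 := by
  classical
  -- the minimal difference
  have hex : ∃ c : ℕ, ∃ X : Submodule E G, Module.Finite E X ∧ X ≠ ⊥ ∧
      finrank E ↥(A * X) = finrank E X + c :=
    ⟨_, B, hfB, hB, (Nat.add_sub_cancel' (le_mul hA)).symm⟩
  obtain ⟨κ, hκ⟩ : ∃ κ, κ = Nat.find hex := ⟨_, rfl⟩
  have hge : ∀ X : Submodule E G, Module.Finite E X → X ≠ ⊥ →
      finrank E X + κ ≤ finrank E ↥(A * X) := by
    intro X hX hX0
    have h1 : finrank E ↥(A * X) = finrank E X + (finrank E ↥(A * X) - finrank E X) :=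
      (Nat.add_sub_cancel' (le_mul hA)).symm
    have h2 := Nat.find_min' hex ⟨X, hX, hX0, h1⟩
    rw [← hκ] at h2
    omega
  have hex2 : ∃ n : ℕ, ∃ X : Submodule E G, Module.Finite E X ∧ X ≠ ⊥ ∧
      finrank E ↥(A * X) = finrank E X + κ ∧ finrank E X = n := by
    obtain ⟨X, h1, h2, h3⟩ := Nat.find_spec hex
    exact ⟨_, X, h1, h2, by rw [hκ]; exact h3, rfl⟩
  obtain ⟨X0, hX0f, hX0b, hX0, hX0n⟩ := Nat.find_spec hex2
  have hmin : ∀ Y : Submodule E G, Module.Finite E Y → Y ≠ ⊥ →
      finrank E ↥(A * Y) = finrank E Y + κ → finrank E X0 ≤ finrank E Y := by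
    intro Y h1 h2 h3
    rw [hX0n]
    exact Nat.find_min' hex2 ⟨Y, h1, h2, h3, rfl⟩
  -- multiples
  have hsc : ∀ (z : G), z ≠ 0 → finrank E ↥(A * (span E {z} * X0)) = finrank E X0 + κ := by
    intro z hz
    have : A * (span E {z} * X0) = span E {z} * (A * X0) := mul_left_comm _ _ _
    rw [this, finrank_smul hz, hX0]
  -- two multiples which meet are equal
  have hkey : ∀ z w : G, z ≠ 0 → w ≠ 0 → (span E {z} * X0) ⊓ (span E {w} * X0) ≠ ⊥ →
      span E {z} * X0 = span E {w} * X0 := by
    intro z w hz hw hne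
    have f1 := fin_smul z X0
    have f2 := fin_smul w X0
    obtain ⟨X, hX⟩ : ∃ X, X = span E {z} * X0 := ⟨_, rfl⟩
    obtain ⟨Y, hY⟩ : ∃ Y, Y = span E {w} * X0 := ⟨_, rfl⟩
    have kX : finrank E X = finrank E X0 := by rw [hX, finrank_smul hz]
    have kY : finrank E Y = finrank E X0 := by rw [hY, finrank_smul hw]
    have aX : finrank E ↥(A * X) = finrank E X0 + κ := by rw [hX, hsc z hz]
    have aY : finrank E ↥(A * Y) = finrank E X0 + κ := by rw [hY, hsc w hw]
    rw [← hX, ← hY] at hne ⊢
    rw [← hX] at f1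
    rw [← hY] at f2
    have f3 : Module.Finite E ↥(X ⊓ Y) := Submodule.finiteDimensional_of_le inf_le_left
    have f4 : Module.Finite E ↥(X ⊔ Y) := inferInstance
    have f5 := fin_mul A X
    have f6 := fin_mul A Y
    have f7 : Module.Finite E ↥((A * X) ⊓ (A * Y)) := Submodule.finiteDimensional_of_le inf_le_left
    have hne' : X ⊔ Y ≠ ⊥ := fun h => hne (by
      have h1 : X = ⊥ := le_bot_iff.1 (h ▸ le_sup_left)
      rw [h1, bot_inf_eq])
    have s1 := hge (X ⊓ Y) f3 hne
    have s2 := hge (X ⊔ Y) f4 hne'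
    have s3 := Submodule.finrank_sup_add_finrank_inf_eq X Y
    have s4 := Submodule.finrank_sup_add_finrank_inf_eq (A * X) (A * Y)
    have s5 : finrank E ↥(A * (X ⊓ Y)) ≤ finrank E ↥((A * X) ⊓ (A * Y)) :=
      Submodule.finrank_mono (le_inf (mul_le_mul' le_rfl inf_le_left)
        (mul_le_mul' le_rfl inf_le_right))
    have s6 : A * (X ⊔ Y) = A * X ⊔ A * Y := Submodule.mul_sup _ _ _
    rw [s6] at s2
    have s7 : finrank E ↥(A * (X ⊓ Y)) = finrank E ↥(X ⊓ Y) + κ := by omega
    have s8 := hmin (X ⊓ Y) f3 hne s7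
    have e1 : X ⊓ Y = X := Submodule.eq_of_le_of_finrank_le inf_le_left (by omega)
    have e2 : X ⊓ Y = Y := Submodule.eq_of_le_of_finrank_le inf_le_right (by omega)
    rw [← e1, e2]
  -- the space `X = x0⁻¹ X0` contains `1`
  obtain ⟨x0, hx0, hx00⟩ := Submodule.exists_mem_ne_zero_of_ne_bot hX0b
  obtain ⟨X, hX⟩ : ∃ X, X = span E {x0⁻¹} * X0 := ⟨_, rfl⟩
  have fX : Module.Finite E X := by rw [hX]; exact fin_smul _ _
  have h1X : (1 : G) ∈ X := by
    rw [hX, mem_span_singleton_mul]
    exact ⟨x0, hx0, inv_mul_cancel₀ hx00⟩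
  have hclosed : ∀ z ∈ X, ∀ w ∈ X, z * w ∈ X := by
    intro z hz w hw
    by_cases hz0 : z = 0
    · rw [hz0, zero_mul]
      exact X.zero_mem
    have h2 : span E {z} * X = X := by
      have h3 : span E {z} * X = span E {z * x0⁻¹} * X0 := by
        rw [hX, ← mul_assoc, span_mul_span, Set.singleton_mul_singleton]
      rw [h3, hX]
      refine hkey _ _ (mul_ne_zero hz0 (inv_ne_zero hx00)) (inv_ne_zero hx00) ?_
      intro h4
      have h5 : z ∈ span E {z * x0⁻¹} * X0 ⊓ span E {x0⁻¹} * X0 := by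
        refine ⟨?_, hX ▸ hz⟩
        rw [SetLike.mem_coe, mem_span_singleton_mul]
        exact ⟨x0, hx0, by rw [mul_assoc, inv_mul_cancel₀ hx00, mul_one]⟩
      rw [h4, mem_bot] at h5
      exact hz0 h5
    rw [← h2]
    exact mul_mem_mul (mem_span_singleton_self z) hw
  have h6 := one_dim h1X hclosed
  have h7 : X = span E {(1 : G)} := by
    refine (Submodule.eq_of_le_of_finrank_le ((span_singleton_le_iff_mem _ _).2 h1X) ?_).symm
    rw [h6]
    exact (finrank_span_singleton one_ne_zero).ge
  have h8 := hsc x0⁻¹ (inv_ne_zero hx00)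
  rw [← hX, h7] at h8
  have h9 : finrank E X0 = 1 := by
    rw [← finrank_smul (inv_ne_zero hx00) X0, ← hX, h6]
  have h10 : A * span E {(1 : G)} = A := by
    rw [← Submodule.one_eq_span]
    exact mul_one A
  rw [h10, h9] at h8
  have := hge B hfB hB
  omega

end Pool.Agent.QTup
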