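import Pool.Agent.GenTuple.Twist

/-!
# The second fundamental form does not vanish

`P(v) = 0`, `v 0` is the last coordinate. If `∂P/∂v₀ ≠ 0` and `v 0` is not a linear combination of
`1` and the other coordinates, then a second derivative along the hypersurface is not zero.
-/

namespace Pool.Agent.QTup

open MvPolynomial Pool.Agent.GenTuple

variable {E G : Type} [Field E] [Field G] [Algebra E G] {k : ℕ}

/-- the second fundamental form -/
noncomputable def hs (v : Fin (k + 1) → G) (P : MvPolynomial (Fin (k + 1)) E) (j l : Fin k) : G :=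
  aeval v (pderiv 0 P) ^ 2 * aeval v (pderiv l.succ (pderiv j.succ P)) -
    aeval v (pderiv 0 P) * aeval v (pderiv l.succ P) * aeval v (pderiv 0 (pderiv j.succ P)) -
    aeval v (pderiv 0 P) * aeval v (pderiv j.succ P) * aeval v (pderiv l.succ (pderiv 0 P)) +
    aeval v (pderiv j.succ P) * aeval v (pderiv l.succ P) * aeval v (pderiv 0 (pderiv 0 P))

/-- an element which is killed by all derivations is in `E` -/
theorem mem_of_der [CharZero E] [IsAlgClosed E] (z : G) (h : ∀ δ : Derivation E G G, δ z = 0) :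
    ∃ e : E, algebraMap E G e = z := by
  by_contra hcon
  have hz : Transcendental E z := by
    intro ha
    have h1 : (minpoly E z).degree = 1 :=
      IsAlgClosed.degree_eq_one_of_irreducible E (minpoly.irreducible ha.isIntegral)
    exact hcon (minpoly.mem_range_of_degree_eq_one E z h1)
  have hw : AlgebraicIndependent E (fun _ : Fin 1 => z) := by
    rw [algebraicIndependent_unique_type_iff]
    exact hz
  obtain ⟨δ, hδ⟩ := exists_der hw (fun _ => 1)
  have h1 := hδ 0
  rw [h δ] at h1
  exact zero_ne_one h1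

theorem der_quot (δ : Derivation E G G) {a q : G} (hq : q ≠ 0) :
    q ^ 2 * δ (a / q) = q * δ a - a * δ q := by
  have h1 : δ a = (a / q) * δ q + q * δ (a / q) := by
    have h2 : a = (a / q) * q := (div_mul_cancel₀ a hq).symm
    conv_lhs => rw [h2]
    rw [Derivation.leibniz, smul_eq_mul, smul_eq_mul]
  have h3 : q * (a / q) = a := mul_div_cancel₀ a hq
  linear_combination (-q) * h1 - δ q * h3

theorem der_hs (v : Fin (k + 1) → G) (P : MvPolynomial (Fin (k + 1)) E) (hP : aeval v P = 0)
    (δ : Derivation E G G) (j : Fin k) :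
    aeval v (pderiv 0 P) * (aeval v (pderiv 0 P) * δ (aeval v (pderiv j.succ P)) -
      aeval v (pderiv j.succ P) * δ (aeval v (pderiv 0 P))) =
      ∑ l, hs v P j l * δ (v l.succ) := by
  have h0 : aeval v (pderiv 0 P) * δ (v 0) + ∑ l : Fin k, aeval v (pderiv l.succ P) *
      δ (v l.succ) = 0 := by
    rw [← Fin.sum_univ_succ (fun l => aeval v (pderiv l P) * δ (v l)), ← der_aeval, hP, map_zero]
  have h1 := der_aeval δ v (pderiv j.succ P)
  have h2 := der_aeval δ v (pderiv 0 P)
  rw [Fin.sum_univ_succ] at h1 h2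
  have h3 : ∑ l, hs v P j l * δ (v l.succ) =
      aeval v (pderiv 0 P) ^ 2 * (∑ l : Fin k, aeval v (pderiv l.succ (pderiv j.succ P)) *
        δ (v l.succ)) -
      aeval v (pderiv 0 P) * aeval v (pderiv 0 (pderiv j.succ P)) *
        (∑ l : Fin k, aeval v (pderiv l.succ P) * δ (v l.succ)) -
      aeval v (pderiv 0 P) * aeval v (pderiv j.succ P) *
        (∑ l : Fin k, aeval v (pderiv l.succ (pderiv 0 P)) * δ (v l.succ)) +
      aeval v (pderiv j.succ P) * aeval v (pderiv 0 (pderiv 0 P)) *
        (∑ l : Fin k, aeval v (pderiv l.succ P) * δ (v l.succ)) := by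
    simp only [Finset.mul_sum, ← Finset.sum_sub_distrib, ← Finset.sum_add_distrib]
    refine Finset.sum_congr rfl fun l _ => ?_
    unfold hs
    ring
  rw [h3, h1, h2]
  linear_combination (aeval v (pderiv 0 P) * aeval v (pderiv 0 (pderiv j.succ P)) -
    aeval v (pderiv j.succ P) * aeval v (pderiv 0 (pderiv 0 P))) * h0

theorem exists_hs [CharZero E] [IsAlgClosed E] (v : Fin (k + 1) → G)
    (P : MvPolynomial (Fin (k + 1)) E) (hP : aeval v P = 0) (hq : aeval v (pderiv 0 P) ≠ 0)
    (hy : ∀ (c0 : E) (c : Fin k → E),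
      v 0 ≠ algebraMap E G c0 + ∑ j, algebraMap E G (c j) * v j.succ) :
    ∃ j l : Fin k, aeval v (pderiv j.succ P) ≠ 0 ∧ hs v P j l ≠ 0 := by
  by_contra hcon
  push Not at hcon
  have hθ : ∀ j : Fin k, ∃ e : E, algebraMap E G e =
      aeval v (pderiv j.succ P) / aeval v (pderiv 0 P) := by
    intro j
    by_cases hj : aeval v (pderiv j.succ P) = 0
    · exact ⟨0, by rw [hj, zero_div, map_zero]⟩
    refine mem_of_der _ fun δ => ?_
    have h1 := der_hs v P hP δ j
    have h2 : ∑ l, hs v P j l * δ (v l.succ) = 0 :=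
      Finset.sum_eq_zero fun l _ => by rw [hcon j l hj, zero_mul]
    rw [h2] at h1
    have h3 := (mul_eq_zero.1 h1).resolve_left hq
    rw [← der_quot δ hq] at h3
    exact (mul_eq_zero.1 h3).resolve_left (pow_ne_zero 2 hq)
  choose e he using hθ
  obtain ⟨c0, hc0⟩ := mem_of_der (v 0 + ∑ j, algebraMap E G (e j) * v j.succ) fun δ => by
    have h0 : aeval v (pderiv 0 P) * δ (v 0) + ∑ l : Fin k, aeval v (pderiv l.succ P) *
        δ (v l.succ) = 0 := by
      rw [← Fin.sum_univ_succ (fun l => aeval v (pderiv l P) * δ (v l)), ← der_aeval, hP,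
        map_zero]
    have h1 : δ (v 0 + ∑ j, algebraMap E G (e j) * v j.succ) =
        δ (v 0) + ∑ j, algebraMap E G (e j) * δ (v j.succ) := by
      rw [map_add, map_sum]
      congr 1
      refine Finset.sum_congr rfl fun j _ => ?_
      rw [Derivation.leibniz, Derivation.map_algebraMap, smul_zero, add_zero, smul_eq_mul]
    rw [h1]
    refine (mul_eq_zero.1 (?_ : aeval v (pderiv 0 P) * _ = 0)).resolve_left hq
    rw [mul_add, Finset.mul_sum, ← h0]
    congr 1
    refine Finset.sum_congr rfl fun j _ => ?_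
    rw [he, ← mul_assoc, mul_div_cancel₀ _ hq]
  refine hy c0 (fun j => - e j) ?_
  rw [hc0]
  simp only [map_neg, neg_mul, Finset.sum_neg_distrib]
  ring

end Pool.Agent.QTup
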