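import Pool.Agent.GenTuple.Dim

/-!
# First and second derivatives of a relation

`P` vanishes at a point of `E ⊗ F`, the derivations `δ, δ'` of `E` kill the coefficients of `P`.
-/

namespace Pool.Agent.QTup

open MvPolynomial TensorProduct Pool.Agent.GenTuple

theorem dcoef_kill {K E : Type*} [CommRing K] [CommRing E] [Algebra K E] {ι : Type*}
    (δ : Derivation K E E) (P : MvPolynomial ι E) (h : ∀ α, δ (P.coeff α) = 0) :
    dcoef δ P = 0 := by
  unfold dcoef
  exact Finset.sum_eq_zero fun α _ => by rw [h, map_zero]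

theorem kill_pderiv {K E : Type*} [CommRing K] [CommRing E] [Algebra K E] {ι : Type*}
    (δ : Derivation K E E) (P : MvPolynomial ι E) (h : ∀ α, δ (P.coeff α) = 0) (l : ι)
    (α : ι →₀ ℕ) : δ ((pderiv l P).coeff α) = 0 := by
  rw [coeff_pderiv, Derivation.leibniz, h, smul_zero, add_zero, map_add,
    Derivation.map_one_eq_zero, Derivation.map_natCast, add_zero, smul_zero]

variable {K E F G : Type} [Field K] [Field E] [Field F] [Field G] [Algebra K E] [Algebra K F]
  [Algebra K G] [Algebra E G] [Algebra F G] [IsScalarTower K E G] [IsScalarTower K F G]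

theorem tder_aeval {ι : Type} [Fintype ι] [DecidableEq ι] (Y : ι → E ⊗[K] F)
    (δ : Derivation K E E) (P : MvPolynomial ι E) (h : ∀ α, δ (P.coeff α) = 0) :
    tder (F := F) δ (aeval Y P) = ∑ l, aeval Y (pderiv l P) * tder (F := F) δ (Y l) := by
  have h1 := der_twist δ (tder (F := F) δ) (fun e => by
    rw [Algebra.TensorProduct.algebraMap_apply, Algebra.algebraMap_self_apply, tder_tmul,
      Algebra.TensorProduct.algebraMap_apply, Algebra.algebraMap_self_apply]) Y P
  rw [dcoef_kill δ P h, map_zero, zero_add] at h1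
  exact h1

theorem two (h : Disj K E F G) {ι : Type} [Fintype ι] [DecidableEq ι] (Y : ι → E ⊗[K] F)
    (v : ι → G) (hv : ∀ l, mu K E F G (Y l) = v l)
    (P : MvPolynomial ι E) (hP : aeval v P = 0) (δ δ' : Derivation K E E)
    (hδ : ∀ α, δ (P.coeff α) = 0) (hδ' : ∀ α, δ' (P.coeff α) = 0) :
    (∑ l, aeval v (pderiv l P) * mu K E F G (tder (F := F) δ (Y l)) = 0) ∧
    ∑ l, ((∑ l', aeval v (pderiv l' (pderiv l P)) * mu K E F G (tder (F := F) δ' (Y l'))) *
      mu K E F G (tder (F := F) δ (Y l)) +
        aeval v (pderiv l P) * mu K E F G (tder (F := F) δ' (tder (F := F) δ (Y l)))) = 0 := by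
  have hmu : ∀ Q : MvPolynomial ι E, mu K E F G (aeval Y Q) = aeval v Q := by
    intro Q
    rw [← AlgHom.comp_apply, comp_aeval]
    congr 2
    funext l
    exact hv l
  have h0 : aeval Y P = 0 := by
    apply mu_injective h
    rw [hmu, hP, map_zero]
  have h1 : ∑ l, aeval Y (pderiv l P) * tder (F := F) δ (Y l) = 0 := by
    rw [← tder_aeval Y δ P hδ, h0, map_zero]
  refine ⟨?_, ?_⟩
  · have h2 := congrArg (mu K E F G) h1
    rw [map_zero, map_sum] at h2
    rw [← h2]
    exact Finset.sum_congr rfl fun l _ => by rw [map_mul, hmu]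
  · have h2 := congrArg (fun z => mu K E F G (tder (F := F) δ' z)) h1
    simp only [map_zero, map_sum] at h2
    rw [← h2]
    refine Finset.sum_congr rfl fun l _ => ?_
    rw [Derivation.leibniz, tder_aeval Y δ' _ (kill_pderiv δ' P hδ' l)]
    simp only [smul_eq_mul, map_add, map_mul, map_sum, hmu]
    ring

end Pool.Agent.QTup
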