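import Pool.Agent.QTup.CD
import Pool.Agent.QTup.Two
import Pool.Agent.QTup.Hess
import Pool.Agent.QT.Pts

/-!
# Generic tuples and an arbitrary further element: the algebraic part

`x_j = ∑ m_ji t_i` with algebraically independent `m_ji`, `y = ∑ n_a p_a` arbitrary, not a
combination of `1, x_1, …, x_k`. Then `y, x_1, …, x_k` have no relation of degree at most `d`.
-/

namespace Pool.Agent.QTup

open MvPolynomial TensorProduct Pool.Agent.GenTuple Pool.Agent.QT Module Submodule

/-- the polynomial is constant if all derivatives vanish -/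
theorem const_of_pderiv {E : Type} [Field E] [CharZero E] {s : ℕ} (P : MvPolynomial (Fin s) E)
    (h : ∀ l, pderiv l P = 0) : ∃ c : E, P = C c := by
  have h1 : P.vars = ∅ := by
    rw [Finset.eq_empty_iff_forall_notMem]
    exact fun l => notMem_vars_of_pderiv l P (h l)
  have h2 : P ∈ supported E (∅ : Set (Fin s)) := by
    rw [mem_supported, h1]
    simp
  rw [supported_empty, Algebra.mem_bot] at h2
  obtain ⟨c, hc⟩ := h2
  exact ⟨c, hc.symm⟩

section

variable {K E F G : Type} [Field K] [Field E] [Field F] [Field G] [Algebra K E] [Algebra K F]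
  [Algebra K G] [Algebra E G] [Algebra F G] [IsScalarTower K E G] [IsScalarTower K F G]

/-- the linear combinations of `t` -/
noncomputable def lt (E : Type) {F G : Type} [Field E] [Field F] [Field G] [Algebra E G]
    [Algebra F G] {r : ℕ} (t : Fin r → F) : (Fin r → E) →ₗ[E] G :=
  Fintype.linearCombination E (fun i => algebraMap F G (t i))

theorem lt_apply {r : ℕ} (t : Fin r → F) (c : Fin r → E) :
    (lt E t c : G) = ∑ i, algebraMap E G (c i) * algebraMap F G (t i) := by
  rw [lt, Fintype.linearCombination_apply]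
  exact Finset.sum_congr rfl fun i _ => Algebra.smul_def _ _

theorem lt_inj (h : Disj K E F G) {r : ℕ} (t : Fin r → F) (ht : LinearIndependent K t) :
    Function.Injective (lt E t : (Fin r → E) →ₗ[E] G) :=
  linearIndependent_iff_injective_fintypeLinearCombination.1 (h (Fin r) t ht)

/-- the point in the tensor product -/
noncomputable def Yt {k r b : ℕ} (t : Fin k → Fin r → F) (p : Fin b → F)
    (m : Fin k × Fin r → E) (n : Fin b → E) : Fin (k + 1) → E ⊗[K] F :=
  Fin.cons (∑ a, n a ⊗ₜ p a) fun j => ∑ i, m (j, i) ⊗ₜ t j i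

/-- the point -/
noncomputable def vt (E : Type) {F G : Type} [Field E] [Field F] [Field G] [Algebra E G]
    [Algebra F G] {k r b : ℕ} (t : Fin k → Fin r → F) (p : Fin b → F) (m : Fin k × Fin r → E)
    (n : Fin b → E) : Fin (k + 1) → G :=
  Fin.cons (lt E p n) fun j => lt E (t j) fun i => m (j, i)

theorem mu_sum {s : ℕ} (t : Fin s → F) (c : Fin s → E) :
    mu K E F G (∑ i, c i ⊗ₜ t i) = lt E t c := by
  rw [map_sum, lt_apply]
  exact Finset.sum_congr rfl fun i _ => mu_tmul _ _

theorem tder_sum {s : ℕ} (t : Fin s → F) (c : Fin s → E) (δ : Derivation K E E) :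
    tder (F := F) δ (∑ i, c i ⊗ₜ[K] t i) = ∑ i, (δ (c i)) ⊗ₜ[K] t i := by
  rw [map_sum]
  exact Finset.sum_congr rfl fun i _ => tder_tmul _ _ _

theorem mu_Yt {k r b : ℕ} (t : Fin k → Fin r → F) (p : Fin b → F) (m : Fin k × Fin r → E)
    (n : Fin b → E) (l : Fin (k + 1)) :
    mu K E F G (Yt (K := K) t p m n l) = vt E t p m n l := by
  refine Fin.cases ?_ (fun j => ?_) l
  · simp only [Yt, vt, Fin.cons_zero]
    exact mu_sum p n
  · simp only [Yt, vt, Fin.cons_succ]
    exact mu_sum (t j) _

/-- the derivation `∑ lam_i ∂/∂m_ji` -/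
noncomputable def Del {k r : ℕ} (D : Fin k × Fin r → Derivation K E E) (j : Fin k)
    (lam : Fin r → E) : Derivation K E E := ∑ i, lam i • D (j, i)

theorem Del_apply {k r : ℕ} (D : Fin k × Fin r → Derivation K E E) (j : Fin k)
    (lam : Fin r → E) (e : E) : Del D j lam e = ∑ i, lam i * D (j, i) e := by
  unfold Del
  rw [← Derivation.coeFnAddMonoidHom_apply, map_sum, Finset.sum_apply]
  rfl

theorem Del_m {k r : ℕ} (D : Fin k × Fin r → Derivation K E E) (m : Fin k × Fin r → E)
    (hD : ∀ q q', D q (m q') = if q' = q then 1 else 0) (j : Fin k) (lam : Fin r → E)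
    (j' : Fin k) (i' : Fin r) : Del D j lam (m (j', i')) = if j' = j then lam i' else 0 := by
  rw [Del_apply]
  by_cases h : j' = j
  · subst h
    rw [if_pos rfl, Finset.sum_eq_single i']
    · rw [hD, if_pos rfl, mul_one]
    · intro i _ hi
      rw [hD, if_neg (fun h => hi (Prod.ext_iff.1 h).2.symm), mul_zero]
    · intro h
      exact absurd (Finset.mem_univ _) h
  · rw [if_neg h]
    exact Finset.sum_eq_zero fun i _ => by
      rw [hD, if_neg (fun h' => h (Prod.ext_iff.1 h').1), mul_zero]

/-- the combinations which kill the coefficients of `P` -/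
noncomputable def Lam {k r s : ℕ} (D : Fin k × Fin r → Derivation K E E)
    (P : MvPolynomial (Fin s) E) (A : Finset (Fin s →₀ ℕ)) (j : Fin k) :
    Submodule E (Fin r → E) :=
  LinearMap.ker (LinearMap.pi fun α : A =>
    (Fintype.linearCombination E (fun i => D (j, i) (P.coeff α.1)) : (Fin r → E) →ₗ[E] E))

theorem mem_Lam {k r s : ℕ} (D : Fin k × Fin r → Derivation K E E)
    (P : MvPolynomial (Fin s) E) (A : Finset (Fin s →₀ ℕ)) (j : Fin k) (lam : Fin r → E) :
    lam ∈ Lam D P A j ↔ ∀ α ∈ A, Del D j lam (P.coeff α) = 0 := by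
  rw [Lam, LinearMap.mem_ker, funext_iff]
  constructor
  · intro h α hα
    have := h ⟨α, hα⟩
    rw [LinearMap.pi_apply, Fintype.linearCombination_apply] at this
    rw [Del_apply]
    exact this
  · intro h α
    rw [LinearMap.pi_apply, Fintype.linearCombination_apply]
    have := h α.1 α.2
    rw [Del_apply] at this
    exact this

theorem finrank_Lam {k r s : ℕ} (D : Fin k × Fin r → Derivation K E E)
    (P : MvPolynomial (Fin s) E) (A : Finset (Fin s →₀ ℕ)) (j : Fin k) :
    r ≤ finrank E (Lam D P A j) + A.card := by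
  have h1 := LinearMap.finrank_range_add_finrank_ker (LinearMap.pi fun α : A =>
    (Fintype.linearCombination E (fun i => D (j, i) (P.coeff α.1)) : (Fin r → E) →ₗ[E] E))
  have h2 : finrank E (LinearMap.range (LinearMap.pi fun α : A =>
    (Fintype.linearCombination E (fun i => D (j, i) (P.coeff α.1)) : (Fin r → E) →ₗ[E] E))) ≤
      A.card := by
    refine (Submodule.finrank_le _).trans ?_
    rw [Module.finrank_fintype_fun_eq_card, Fintype.card_coe]
  rw [Module.finrank_fintype_fun_eq_card, Fintype.card_fin] at h1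
  unfold Lam
  omega

end

end Pool.Agent.QTup
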