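import Pool.Agent.QTup.Main
import Pool.Agent.QGT.UltraT

/-!
# Theorem T over an algebraically closed field

For almost all `x_j` in spaces `W_j` of dimension `r` and every `y` in a space `W'` of dimension
`b ≤ 2 r - 3 N + 1` which is not a combination of `1, x_1, …, x_k`, there is no relation of degree
at most `d` between `y, x_1, …, x_k`; `N` is the number of monomials.
-/

namespace Pool.Agent.QTup

open MvPolynomial Pool.Agent.GenTuple Pool.Agent.QT Module Submodule

theorem genericT {K F : Type} [Field K] [CharZero K] [IsAlgClosed K] [Field F] [Algebra K F]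
    {k r b d : ℕ} (hN : b + 3 * (k + 1 + d).choose d ≤ 2 * r + 1) (t : Fin k → Fin r → F)
    (ht : ∀ j, LinearIndependent K (t j)) (p : Fin b → F) :
    ∃ Φ : MvPolynomial (Fin k × Fin r) K, Φ ≠ 0 ∧
      ∀ (m : Fin k × Fin r → K) (n : Fin b → K), eval m Φ ≠ 0 →
      (∀ (c0 : K) (c : Fin k → K), ∑ j, algebraMap K F (n j) * p j ≠
        algebraMap K F c0 + ∑ i, algebraMap K F (c i) *
          ∑ j, algebraMap K F (m (i, j)) * t i j) →
        Good K d (Fin.cons (∑ j, algebraMap K F (n j) * p j)
          fun i => ∑ j, algebraMap K F (m (i, j)) * t i j : Fin (k + 1) → F) := by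
  refine QGT.ultraT t p fun E G _ _ _ _ _ _ _ _ _ hD m n hm hy hrel => hrel ?_
  have h1 := coreT hD hN t ht p m n hm (by
    intro c0 c
    simp only [lt_apply]
    exact hy c0 c)
  unfold vt at h1
  simp only [lt_apply] at h1
  exact h1

end Pool.Agent.QTup
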