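import Pool.Agent.QTup.Core

/-!
# Generic tuples and an arbitrary further element: the count
-/

namespace Pool.Agent.QTup

open MvPolynomial TensorProduct Pool.Agent.GenTuple Pool.Agent.QT Module Submodule
open scoped Pointwise

section

variable {K E F G : Type} [Field K] [Field E] [Field F] [Field G] [Algebra K E] [Algebra K F]
  [Algebra K G] [Algebra E G] [Algebra F G] [IsScalarTower K E G] [IsScalarTower K F G]

theorem mu_tder_zero {k r b : ℕ} (t : Fin k → Fin r → F) (p : Fin b → F)
    (m : Fin k × Fin r → E) (n : Fin b → E) (δ : Derivation K E E) :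
    mu K E F G (tder (F := F) δ (Yt (K := K) t p m n 0)) = lt E p fun a => δ (n a) := by
  simp only [Yt, Fin.cons_zero]
  rw [tder_sum]
  exact mu_sum p _

theorem mu_tder_succ {k r b : ℕ} (t : Fin k → Fin r → F) (p : Fin b → F)
    (m : Fin k × Fin r → E) (n : Fin b → E) (δ : Derivation K E E) (j : Fin k) :
    mu K E F G (tder (F := F) δ (Yt (K := K) t p m n j.succ)) =
      lt E (t j) fun i => δ (m (j, i)) := by
  simp only [Yt, Fin.cons_succ]
  rw [tder_sum]
  exact mu_sum (t j) _

theorem mu_tder2_zero {k r b : ℕ} (t : Fin k → Fin r → F) (p : Fin b → F)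
    (m : Fin k × Fin r → E) (n : Fin b → E) (δ δ' : Derivation K E E) :
    mu K E F G (tder (F := F) δ' (tder (F := F) δ (Yt (K := K) t p m n 0))) =
      lt E p fun a => δ' (δ (n a)) := by
  simp only [Yt, Fin.cons_zero]
  rw [tder_sum, tder_sum]
  exact mu_sum p _

theorem mu_tder2_succ {k r b : ℕ} (t : Fin k → Fin r → F) (p : Fin b → F)
    (m : Fin k × Fin r → E) (n : Fin b → E) (δ δ' : Derivation K E E) (j : Fin k) :
    mu K E F G (tder (F := F) δ' (tder (F := F) δ (Yt (K := K) t p m n j.succ))) =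
      lt E (t j) fun i => δ' (δ (m (j, i))) := by
  simp only [Yt, Fin.cons_succ]
  rw [tder_sum, tder_sum]
  exact mu_sum (t j) _

theorem lt_ite {r : ℕ} (t : Fin r → F) (c : Fin r → E) (P : Prop) [Decidable P] :
    (lt E t (fun i => if P then c i else 0) : G) = if P then lt E t c else 0 := by
  split_ifs with h
  · rfl
  · exact map_zero _

/-- the first and the second relation -/
theorem rels (h : Disj K E F G) {k r b : ℕ} (t : Fin k → Fin r → F) (p : Fin b → F)
    (m : Fin k × Fin r → E) (n : Fin b → E) (D : Fin k × Fin r → Derivation K E E)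
    (hD : ∀ q q', D q (m q') = if q' = q then 1 else 0) (P : MvPolynomial (Fin (k + 1)) E)
    (hP : aeval (vt E t p m n : Fin (k + 1) → G) P = 0) (j l : Fin k) (lam lam' : Fin r → E)
    (h1 : ∀ α, Del D j lam (P.coeff α) = 0) (h2 : ∀ α, Del D l lam' (P.coeff α) = 0) :
    aeval (vt E t p m n : Fin (k + 1) → G) (pderiv 0 P) * lt E p (fun a => Del D j lam (n a)) +
      aeval (vt E t p m n : Fin (k + 1) → G) (pderiv j.succ P) * lt E (t j) lam = 0 ∧
    ((aeval (vt E t p m n : Fin (k + 1) → G) (pderiv 0 (pderiv 0 P)) *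
        lt E p (fun a => Del D l lam' (n a)) +
      aeval (vt E t p m n : Fin (k + 1) → G) (pderiv l.succ (pderiv 0 P)) * lt E (t l) lam') *
        lt E p (fun a => Del D j lam (n a)) +
      aeval (vt E t p m n : Fin (k + 1) → G) (pderiv 0 P) *
        lt E p (fun a => Del D l lam' (Del D j lam (n a)))) +
    ((aeval (vt E t p m n : Fin (k + 1) → G) (pderiv 0 (pderiv j.succ P)) *
        lt E p (fun a => Del D l lam' (n a)) +
      aeval (vt E t p m n : Fin (k + 1) → G) (pderiv l.succ (pderiv j.succ P)) * lt E (t l) lam') *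
        lt E (t j) lam +
      aeval (vt E t p m n : Fin (k + 1) → G) (pderiv j.succ P) *
        lt E (t j) (fun i => Del D l lam' (lam i))) = 0 := by
  obtain ⟨r1, r2⟩ := two h (Yt (K := K) t p m n) (vt E t p m n) (mu_Yt t p m n) P hP
    (Del D j lam) (Del D l lam') h1 h2
  have e1 : ∀ (j : Fin k) (lam : Fin r → E) (j' : Fin k),
      mu K E F G (tder (F := F) (Del D j lam) (Yt (K := K) t p m n j'.succ)) =
        if j' = j then lt E (t j') lam else 0 := by
    intro j lam j'
    rw [mu_tder_succ]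
    simp only [Del_m D m hD]
    exact lt_ite (t j') lam (j' = j)
  have e2 : ∀ j' : Fin k, mu K E F G (tder (F := F) (Del D l lam')
      (tder (F := F) (Del D j lam) (Yt (K := K) t p m n j'.succ))) =
        if j' = j then lt E (t j') (fun i => Del D l lam' (lam i)) else 0 := by
    intro j'
    rw [mu_tder2_succ]
    simp only [Del_m D m hD]
    split_ifs with h3
    · rfl
    · simp only [map_zero]
      exact map_zero _
  constructor
  · rw [Fin.sum_univ_succ] at r1
    simp only [e1, mu_tder_zero, mul_ite, mul_zero, Finset.sum_ite_eq', Finset.mem_univ,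
      if_true] at r1
    exact r1
  · rw [Fin.sum_univ_succ] at r2
    simp only [Fin.sum_univ_succ, e1, e2, mu_tder_zero, mu_tder2_zero, mul_ite, mul_zero,
      Finset.sum_ite_eq', Finset.mem_univ, if_true, Finset.sum_add_distrib] at r2
    exact r2

/-- the second fundamental form times two elements -/
theorem hs_rel (h : Disj K E F G) {k r b : ℕ} (t : Fin k → Fin r → F) (p : Fin b → F)
    (m : Fin k × Fin r → E) (n : Fin b → E) (D : Fin k × Fin r → Derivation K E E)
    (hD : ∀ q q', D q (m q') = if q' = q then 1 else 0) (P : MvPolynomial (Fin (k + 1)) E)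
    (hP : aeval (vt E t p m n : Fin (k + 1) → G) P = 0) (j l : Fin k) (lam lam' : Fin r → E)
    (h1 : ∀ α, Del D j lam (P.coeff α) = 0) (h2 : ∀ α, Del D l lam' (P.coeff α) = 0) :
    hs (vt E t p m n : Fin (k + 1) → G) P j l * (lt E (t j) lam * lt E (t l) lam') =
      -(aeval (vt E t p m n : Fin (k + 1) → G) (pderiv 0 P)) ^ 2 *
        (aeval (vt E t p m n : Fin (k + 1) → G) (pderiv j.succ P) *
          lt E (t j) (fun i => Del D l lam' (lam i)) +
        aeval (vt E t p m n : Fin (k + 1) → G) (pderiv 0 P) *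
          lt E p (fun a => Del D l lam' (Del D j lam (n a)))) := by
  obtain ⟨R1, R2⟩ := rels h t p m n D hD P hP j l lam lam' h1 h2
  obtain ⟨R3, -⟩ := rels h t p m n D hD P hP l j lam' lam h2 h1
  unfold hs
  linear_combination (aeval (vt E t p m n : Fin (k + 1) → G) (pderiv 0 P)) ^ 2 * R2 -
    aeval (vt E t p m n : Fin (k + 1) → G) (pderiv 0 (pderiv 0 P)) *
      (aeval (vt E t p m n : Fin (k + 1) → G) (pderiv 0 P) *
        lt E p (fun a => Del D l lam' (n a))) * R1 +
    aeval (vt E t p m n : Fin (k + 1) → G) (pderiv 0 (pderiv 0 P)) *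
      (aeval (vt E t p m n : Fin (k + 1) → G) (pderiv j.succ P) * lt E (t j) lam) * R3 -
    aeval (vt E t p m n : Fin (k + 1) → G) (pderiv 0 P) *
      aeval (vt E t p m n : Fin (k + 1) → G) (pderiv l.succ (pderiv 0 P)) *
        lt E (t l) lam' * R1 -
    aeval (vt E t p m n : Fin (k + 1) → G) (pderiv 0 P) *
      aeval (vt E t p m n : Fin (k + 1) → G) (pderiv 0 (pderiv j.succ P)) *
        lt E (t j) lam * R3

/-- the count -/
theorem count {r b s : ℕ} [IsAlgClosed E] (W W' A B : Submodule E G) [Module.Finite E W]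
    [Module.Finite E W'] (hA : A ≤ W) (hfB : Module.Finite E B) (hW : finrank E W ≤ r)
    (hW' : finrank E W' ≤ b) (hrA : r ≤ finrank E A + s) (hrB : r ≤ finrank E B + s)
    (hs1 : s < r) (H q pj : G) (hH : H ≠ 0) (hpj : pj ≠ 0)
    (h1 : ∀ w ∈ A, ∃ z ∈ W', q * z = pj * w)
    (h2 : ∀ w ∈ A, ∀ w' ∈ B, ∃ u ∈ W, ∃ z ∈ W', H * (w * w') = q ^ 2 * (pj * u + q * z)) :
    2 * r ≤ b + 3 * s + 1 := by
  have fA : Module.Finite E A := Submodule.finiteDimensional_of_le hA
  have hA0 : A ≠ ⊥ := by
    intro h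
    rw [h, finrank_bot] at hrA
    omega
  have hB0 : B ≠ ⊥ := by
    intro h
    rw [h, finrank_bot] at hrB
    omega
  have hcd := cd A B hA0 hB0
  obtain ⟨X, hX⟩ : ∃ X, X = span E {pj} * W := ⟨_, rfl⟩
  obtain ⟨Z, hZ⟩ : ∃ Z, Z = span E {q} * W' := ⟨_, rfl⟩
  have fX : Module.Finite E X := by rw [hX]; exact fin_smul _ _
  have fZ : Module.Finite E Z := by rw [hZ]; exact fin_smul _ _
  have fXZ : Module.Finite E ↥(X ⊔ Z) := inferInstance
  have rX : finrank E X ≤ r := by rw [hX, finrank_smul hpj]; exact hW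
  have rZ : finrank E Z ≤ b := by
    by_cases hq : q = 0
    · rw [hZ, hq, Submodule.span_zero_singleton, Submodule.bot_mul, finrank_bot]
      exact Nat.zero_le _
    · rw [hZ, finrank_smul hq]
      exact hW'
  have hint : span E {pj} * A ≤ X ⊓ Z := by
    intro y hy
    obtain ⟨w, hw, rfl⟩ := mem_span_singleton_mul.1 hy
    refine ⟨?_, ?_⟩
    · rw [hX, SetLike.mem_coe, mem_span_singleton_mul]
      exact ⟨w, hA hw, rfl⟩
    · obtain ⟨z, hz, hzw⟩ := h1 w hw
      rw [hZ, SetLike.mem_coe, mem_span_singleton_mul]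
      exact ⟨z, hz, hzw⟩
  have f3 : Module.Finite E ↥(X ⊓ Z) := Submodule.finiteDimensional_of_le inf_le_left
  have r1 : finrank E A ≤ finrank E ↥(X ⊓ Z) := by
    rw [← finrank_smul hpj A]
    exact Submodule.finrank_mono hint
  have r2 := Submodule.finrank_sup_add_finrank_inf_eq X Z
  have hle : A * B ≤ span E {H⁻¹ * q ^ 2} * (X ⊔ Z) := by
    rw [Submodule.mul_le]
    intro w hw w' hw'
    obtain ⟨u, hu, z, hz, h3⟩ := h2 w hw w' hw'
    rw [mem_span_singleton_mul]
    refine ⟨pj * u + q * z, add_mem (mem_sup_left ?_) (mem_sup_right ?_), ?_⟩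
    · rw [hX, mem_span_singleton_mul]
      exact ⟨u, hu, rfl⟩
    · rw [hZ, mem_span_singleton_mul]
      exact ⟨z, hz, rfl⟩
    · rw [mul_assoc, ← h3, inv_mul_cancel_left₀ hH]
  have f4 : Module.Finite E ↥(span E {H⁻¹ * q ^ 2} * (X ⊔ Z)) := fin_smul _ _
  have r3 := Submodule.finrank_mono hle
  have r4 : finrank E ↥(span E {H⁻¹ * q ^ 2} * (X ⊔ Z)) ≤ finrank E ↥(X ⊔ Z) := by
    by_cases hz : H⁻¹ * q ^ 2 = 0
    · rw [hz, Submodule.span_zero_singleton, Submodule.bot_mul, finrank_bot]
      exact Nat.zero_le _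
    · rw [finrank_smul hz]
  omega

/-- **Theorem T, algebraic part.** -/
theorem coreT [CharZero K] [IsAlgClosed E] (h : Disj K E F G) {k r b d : ℕ}
    (hN : b + 3 * (k + 1 + d).choose d ≤ 2 * r + 1) (t : Fin k → Fin r → F)
    (ht : ∀ j, LinearIndependent K (t j)) (p : Fin b → F) (m : Fin k × Fin r → E)
    (n : Fin b → E) (hm : AlgebraicIndependent K m)
    (hy : ∀ (c0 : E) (c : Fin k → E), (lt E p n : G) ≠
      algebraMap E G c0 + ∑ j, algebraMap E G (c j) * lt E (t j) fun i => m (j, i)) :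
    Good E d (vt E t p m n : Fin (k + 1) → G) := by
  classical
  have hcE : CharZero E := charZero_of_injective_algebraMap (algebraMap K E).injective
  by_contra hrel
  obtain ⟨v, hv⟩ : ∃ v, v = (vt E t p m n : Fin (k + 1) → G) := ⟨_, rfl⟩
  rw [← hv] at hrel
  have hN0 : 0 < (k + 1 + d).choose d := Nat.choose_pos (by omega)
  -- a relation of minimal degree
  have hex : ∃ N : ℕ, ∃ P : MvPolynomial (Fin (k + 1)) E, P ≠ 0 ∧ P.totalDegree = N ∧
      aeval v P = 0 := by
    unfold Good at hrel
    push Not at hrel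
    obtain ⟨P, _, h2, h3⟩ := hrel
    exact ⟨_, P, h3, rfl, h2⟩
  obtain ⟨P0, hP00, hP0n, hP0⟩ := Nat.find_spec hex
  have hmin0 : ∀ Q : MvPolynomial (Fin (k + 1)) E, aeval v Q = 0 →
      Q.totalDegree < P0.totalDegree → Q = 0 := by
    intro Q hQ hd
    by_contra hne
    exact Nat.find_min hex (hP0n ▸ hd) ⟨Q, hne, rfl, hQ⟩
  have hd0 : P0.totalDegree ≤ d := by
    unfold Good at hrel
    push Not at hrel
    obtain ⟨Q, h1, h2, h3⟩ := hrel
    by_contra hcon
    exact h3 (hmin0 Q h2 (by omega))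
  -- one coefficient is `1`
  obtain ⟨α0, hα0⟩ := MvPolynomial.ne_zero_iff.1 hP00
  obtain ⟨P, hPdef⟩ : ∃ P, P = C (P0.coeff α0)⁻¹ * P0 := ⟨_, rfl⟩
  have hPne : P ≠ 0 := by
    rw [hPdef]
    exact mul_ne_zero (by rw [Ne, C_eq_zero]; exact inv_ne_zero hα0) hP00
  have hPd0 : P.totalDegree ≤ P0.totalDegree := by
    rw [hPdef]
    refine (totalDegree_mul _ _).trans ?_
    rw [totalDegree_C, zero_add]
  have hP : aeval v P = 0 := by rw [hPdef, map_mul, hP0, mul_zero]
  have hP1 : P.coeff α0 = 1 := by rw [hPdef, coeff_C_mul, inv_mul_cancel₀ hα0]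
  have hmin : ∀ l, aeval v (pderiv l P) = 0 → pderiv l P = 0 := by
    intro l hl
    by_contra hne
    exact hne (hmin0 _ hl (lt_of_lt_of_le (totalDegree_pderiv_lt l P hne) hPd0))
  have hlow : ∀ α, α ∉ lowDeg (Fin (k + 1)) d → P.coeff α = 0 := by
    intro α hα
    by_contra hne
    apply hα
    rw [mem_lowDeg]
    have h2 := le_totalDegree (mem_support_iff.2 hne)
    rw [Finsupp.sum_fintype _ _ (fun _ => rfl)] at h2
    omega
  have hα0l : α0 ∈ lowDeg (Fin (k + 1)) d := by
    by_contra hne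
    rw [hlow α0 hne] at hP1
    exact zero_ne_one hP1
  obtain ⟨A, hA⟩ : ∃ A, A = (lowDeg (Fin (k + 1)) d).erase α0 := ⟨_, rfl⟩
  have hAc : A.card ≤ (k + 1 + d).choose d - 1 := by
    rw [hA, Finset.card_erase_of_mem hα0l]
    have := card_lowDeg_le (Fin (k + 1)) d
    rw [Fintype.card_fin] at this
    omega
  -- the derivations
  have hder : ∀ q : Fin k × Fin r, ∃ D : Derivation K E E, ∀ q', D (m q') =
      if q' = q then 1 else 0 := fun q => exists_der hm _
  choose D hD using hder
  have hkill : ∀ j lam, lam ∈ Lam D P A j → ∀ α, Del D j lam (P.coeff α) = 0 := by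
    intro j lam hlam α
    by_cases h1 : α = α0
    · rw [h1, hP1, Derivation.map_one_eq_zero]
    by_cases h2 : α ∈ lowDeg (Fin (k + 1)) d
    · exact (mem_Lam D P A j lam).1 hlam α (by rw [hA]; exact Finset.mem_erase.2 ⟨h1, h2⟩)
    · rw [hlow α h2, map_zero]
  have hrk : ∀ j, r ≤ finrank E (Lam D P A j) + A.card := fun j => finrank_Lam D P A j
  have hsr : A.card < r := by omega
  -- the last derivative does not vanish
  have hq : aeval v (pderiv 0 P) ≠ 0 := by
    intro hq
    have hall : ∀ l, pderiv l P = 0 := by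
      intro l
      refine Fin.cases (hmin 0 hq) (fun j => ?_) l
      have hne : Lam D P A j ≠ ⊥ := by
        intro h1
        have h2 := hrk j
        rw [h1, finrank_bot] at h2
        omega
      obtain ⟨lam, hlam, hlam0⟩ := Submodule.exists_mem_ne_zero_of_ne_bot hne
      have h1 := (rels h t p m n D hD P (by rw [← hv]; exact hP) j j lam lam
        (hkill j lam hlam) (hkill j lam hlam)).1
      rw [← hv, hq, zero_mul, zero_add] at h1
      refine hmin _ ((mul_eq_zero.1 h1).resolve_right fun h2 => hlam0 ?_)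
      exact lt_inj h (t j) (ht j) (by rw [h2, map_zero])
    obtain ⟨c, hc⟩ := const_of_pderiv P hall
    rw [hc, aeval_C] at hP
    apply hPne
    rw [hc, (map_eq_zero (algebraMap E G)).1 hP, map_zero]
  obtain ⟨j, l, hpj, hH⟩ := exists_hs v P hP hq (by
    intro c0 c
    rw [hv]
    simp only [vt, Fin.cons_zero, Fin.cons_succ]
    exact hy c0 c)
  have hfin : ∀ s : ℕ, Module.Finite E (⊤ : Submodule E (Fin s → E)) := fun s => inferInstance
  have key := count (r := r) (b := b) (s := A.card) (LinearMap.range (lt E (t j) : _ →ₗ[E] G))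
    (LinearMap.range (lt E p : _ →ₗ[E] G)) ((Lam D P A j).map (lt E (t j)))
    ((Lam D P A l).map (lt E (t l))) (LinearMap.map_le_range) inferInstance
    (by
      have := LinearMap.finrank_range_le (lt E (t j) : _ →ₗ[E] G)
      rwa [Module.finrank_fintype_fun_eq_card, Fintype.card_fin] at this)
    (by
      have := LinearMap.finrank_range_le (lt E p : _ →ₗ[E] G)
      rwa [Module.finrank_fintype_fun_eq_card, Fintype.card_fin] at this)
    (by
      rw [← LinearEquiv.finrank_eq (Submodule.equivMapOfInjective (lt E (t j) : _ →ₗ[E] G)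
        (lt_inj h (t j) (ht j)) (Lam D P A j))]
      exact hrk j)
    (by
      rw [← LinearEquiv.finrank_eq (Submodule.equivMapOfInjective (lt E (t l) : _ →ₗ[E] G)
        (lt_inj h (t l) (ht l)) (Lam D P A l))]
      exact hrk l)
    hsr (hs v P j l) (aeval v (pderiv 0 P)) (aeval v (pderiv j.succ P)) hH hpj
    (by
      rintro _ ⟨lam, hlam, rfl⟩
      have h1 := (rels h t p m n D hD P (by rw [← hv]; exact hP) j j lam lam
        (hkill j lam hlam) (hkill j lam hlam)).1
      rw [← hv] at h1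
      refine ⟨lt E p (fun a => - Del D j lam (n a)), ⟨_, rfl⟩, ?_⟩
      have h2 : (lt E p (fun a => - Del D j lam (n a)) : G) =
          - lt E p (fun a => Del D j lam (n a)) := by
        rw [← map_neg]
        rfl
      rw [h2]
      linear_combination -h1)
    (by
      rintro _ ⟨lam, hlam, rfl⟩ _ ⟨lam', hlam', rfl⟩
      have h1 := hs_rel h t p m n D hD P (by rw [← hv]; exact hP) j l lam lam'
        (hkill j lam hlam) (hkill l lam' hlam')
      rw [← hv] at h1
      refine ⟨- lt E (t j) (fun i => Del D l lam' (lam i)), neg_mem ⟨_, rfl⟩,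
        - lt E p (fun a => Del D l lam' (Del D j lam (n a))), neg_mem ⟨_, rfl⟩, ?_⟩
      rw [h1]
      ring)
  omega

end

end Pool.Agent.QTup
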